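import Pool.Agent.Q324.DP.Defs

/-!
# Characterisation by `↓`-functions, and arc consistency
-/

namespace Pool.Agent.Q324.DP

variable {C : Type}

/-- `a` is the greatest lower bound of `b` and `x`. -/
def GLB (le : C → C → Prop) (a b x : C) : Prop := le a b ∧ le a x ∧ ∀ z, le z b → le z x → le z a

/-- `↓`-functions. -/
def Down (le : C → C → Prop) (f : C → C) : Prop :=
  (∀ c, le (f c) c) ∧ (∀ c d, le c d → le (f c) (f d)) ∧ ∀ c d, le c (f d) → f c = c

section

variable {le : C → C → Prop} (hr : ∀ a, le a a) (ht : ∀ a b c, le a b → le b c → le a c)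
  (ha : ∀ a b, le a b → le b a → a = b)

include hr ht ha

theorem down_iff (f : C → C) : Down le f ↔ ∀ x y, le x y → GLB le (f x) (f y) x := by
  constructor
  · rintro ⟨h1, h2, h3⟩ x y hxy
    refine ⟨h2 x y hxy, h1 x, fun z hz1 hz2 => ?_⟩
    have h4 := h3 z y hz1
    rw [← h4]
    exact h2 z x hz2
  · intro h
    refine ⟨fun c => (h c c (hr c)).2.1, fun c d hcd => (h c d hcd).1, fun c d hcd => ?_⟩
    have h1 : le c d := ht _ _ _ hcd (h d d (hr d)).2.1
    have h2 := h c d h1
    exact ha _ _ h2.2.1 (h2.2.2 c hcd (hr c))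

theorem isDownPoset_iff : IsDownPoset le ↔ ∀ c d, le c d → ∃ f, Down le f ∧ f d = c := by
  constructor
  · rintro ⟨S, _, D, act, e, h1, h2, _, h4⟩ c d hcd
    obtain ⟨s, hs⟩ := (h4 c d).1 hcd
    refine ⟨fun x => e.symm (act (e x) s), ⟨fun x => ?_, fun x y hxy => ?_, fun x y hxy => ?_⟩, ?_⟩
    · rw [h4]
      exact ⟨s, by simp⟩
    · rw [h4] at hxy ⊢
      obtain ⟨t, ht⟩ := hxy
      refine ⟨t, ?_⟩
      simp only [Equiv.apply_symm_apply]
      rw [← h2, mul_comm, h2, ht]
    · rw [h4] at hxy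
      obtain ⟨t, ht⟩ := hxy
      simp only [Equiv.apply_symm_apply] at ht
      rw [Equiv.symm_apply_eq, ← ht, ← h2, ← h2, ← h2, mul_comm t s, ← mul_assoc s s t, h1]
    · simp only
      rw [hs]
      simp
  · intro h
    have hcomp : ∀ f g : C → C, Down le f → Down le g → Down le (fun x => g (f x)) := by
      rintro f g ⟨f1, f2, f3⟩ ⟨g1, g2, g3⟩
      refine ⟨fun c => ht _ _ _ (g1 _) (f1 _), fun c d hcd => g2 _ _ (f2 _ _ hcd),
        fun c d hcd => ?_⟩
      have h1 : f c = c := f3 c d (ht _ _ _ hcd (g1 _))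
      simp only
      rw [h1]
      exact g3 c _ hcd
    have hle : ∀ f g : C → C, Down le f → Down le g → ∀ x, le (g (f x)) (f (g x)) := by
      rintro f g ⟨f1, f2, f3⟩ ⟨g1, g2, g3⟩ x
      have h1 : f (g (f x)) = g (f x) := f3 _ _ (g1 (f x))
      rw [← h1]
      exact f2 _ _ (g2 _ _ (f1 x))
    let M : CommMonoid {f : C → C // Down le f} :=
      { mul := fun f g => ⟨fun x => g.1 (f.1 x), hcomp _ _ f.2 g.2⟩
        mul_assoc := fun _ _ _ => rfl
        one := ⟨fun x => x, hr, fun _ _ h => h, fun _ _ _ => rfl⟩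
        one_mul := fun _ => rfl
        mul_one := fun _ => rfl
        mul_comm := fun f g => Subtype.ext (funext fun x =>
          ha _ _ (hle _ _ f.2 g.2 x) (hle _ _ g.2 f.2 x)) }
    refine ⟨{f : C → C // Down le f}, M, C, fun c f => f.1 c, Equiv.refl C, ?_, ?_, ?_, ?_⟩
    · intro f
      exact Subtype.ext (funext fun x => f.2.2.2 _ x (hr _))
    · intro c f g
      rfl
    · intro c
      rfl
    · intro c d
      constructor
      · intro hcd
        obtain ⟨f, hf, hfd⟩ := h c d hcd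
        exact ⟨⟨f, hf⟩, hfd⟩
      · rintro ⟨f, hf⟩
        simp only [Equiv.refl_apply] at hf
        rw [← hf]
        exact f.2.1 d

/-- An arc consistent family of nonempty finite sets gives a `↓`-function. -/
theorem exists_down (D : C → Finset C) (hne : ∀ y, (D y).Nonempty)
    (hle : ∀ y, ∀ b ∈ D y, le b y)
    (h1 : ∀ y, ∀ b ∈ D y, ∀ x, le x y → ∃ a ∈ D x, GLB le a b x)
    (h2 : ∀ x, ∀ a ∈ D x, ∀ y, le x y → ∃ b ∈ D y, GLB le a b x) :
    ∃ f : C → C, Down le f ∧ ∀ y z, le z (f y) ↔ ∀ b ∈ D y, le z b := by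
  classical
  -- the intersection of the down-sets of the elements of `D y` is principal
  have key : ∀ (y : C) (T : Finset C), T.Nonempty → T ⊆ D y → ∃ m, ∀ z, le z m ↔ ∀ b ∈ T, le z b := by
    intro y T hT
    induction T using Finset.induction_on with
    | empty => exact absurd hT (by simp)
    | insert b T hb ih =>
      intro hsub
      have hbD : b ∈ D y := hsub (Finset.mem_insert_self _ _)
      rcases T.eq_empty_or_nonempty with rfl | hT'
      · exact ⟨b, fun z => by simp⟩
      · obtain ⟨m, hm⟩ := ih hT' (fun x hx => hsub (Finset.mem_insert_of_mem hx))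
        obtain ⟨b', hb'⟩ := hT'
        have hmy : le m y := ht _ _ _ ((hm m).1 (hr m) b' hb')
          (hle y b' (hsub (Finset.mem_insert_of_mem hb')))
        obtain ⟨a, _, ha1, ha2, ha3⟩ := h1 y b hbD m hmy
        refine ⟨a, fun z => ?_⟩
        rw [Finset.forall_mem_insert]
        constructor
        · intro hz
          exact ⟨ht _ _ _ hz ha1, (hm z).1 (ht _ _ _ hz ha2)⟩
        · rintro ⟨hz1, hz2⟩
          exact ha3 z hz1 ((hm z).2 hz2)
  choose f hf using fun y => key y (D y) (hne y) (fun x hx => hx)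
  refine ⟨f, ?_, hf⟩
  rw [down_iff hr ht ha]
  intro x y hxy
  have h3 : ∀ z, le z (f x) ↔ le z (f y) ∧ le z x := by
    intro z
    rw [hf, hf]
    constructor
    · intro hz
      constructor
      · intro b hb
        obtain ⟨a, haD, ha1, _, _⟩ := h1 y b hb x hxy
        exact ht _ _ _ (hz a haD) ha1
      · obtain ⟨a, haD⟩ := hne x
        exact ht _ _ _ (hz a haD) (hle x a haD)
    · rintro ⟨hz1, hz2⟩ a haD
      obtain ⟨b, hb, _, _, hb3⟩ := h2 x a haD y hxy
      exact hb3 z (hz1 b hb) hz2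
  have h4 := (h3 (f x)).1 (hr _)
  exact ⟨h4.1, h4.2, fun z hz1 hz2 => (h3 z).2 ⟨hz1, hz2⟩⟩

end

end Pool.Agent.Q324.DP
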