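import Pool.Agent.Q324.DP.AC
import Pool.Agent.NPC.Dec
import Pool.Agent.H671R2.PolyAuto

/-!
# The algorithm
-/

namespace Pool.Agent.Q324.DP

open Pool.Agent.NPC

/-- matrices -/
abbrev Mx : Type := List (List Bool)

/-- entries -/
def le (M : Mx) (i j : ℕ) : Bool := (M.getD i []).getD j false

theorem le_poly : Poly (fun p : (Mx × ℕ) × ℕ => le p.1.1 p.1.2 p.2) := by
  unfold le
  fun_prop

theorem le_poly' {α : Type} [TEnc α] {M : α → Mx} {i j : α → ℕ} (h1 : Poly M) (h2 : Poly i)
    (h3 : Poly j) : Poly (fun a => le (M a) (i a) (j a)) :=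
  le_poly.comp (Poly.pair (Poly.pair h1 h2) h3)

attribute [fun_prop] le_poly'
attribute [local irreducible] le

/-- the elements -/
def rg (M : Mx) : List ℕ := List.range M.length

theorem rg_poly' {α : Type} [TEnc α] {M : α → Mx} (h1 : Poly M) : Poly (fun a => rg (M a)) :=
  UPoly.range (UPoly.length h1)

attribute [fun_prop] rg_poly'
attribute [local irreducible] rg

/-- greatest lower bounds -/
def glb (M : Mx) (a b x : ℕ) : Bool :=
  le M a b && (le M a x && (rg M).all (fun z => !(le M z b && le M z x) || le M z a))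

theorem glb_poly : Poly (fun p : ((Mx × ℕ) × ℕ) × ℕ => glb p.1.1.1 p.1.1.2 p.1.2 p.2) := by
  unfold glb
  fun_prop

theorem glb_poly' {α : Type} [TEnc α] {M : α → Mx} {i j k : α → ℕ} (h1 : Poly M) (h2 : Poly i)
    (h3 : Poly j) (h4 : Poly k) : Poly (fun a => glb (M a) (i a) (j a) (k a)) :=
  glb_poly.comp (Poly.pair (Poly.pair (Poly.pair h1 h2) h3) h4)

attribute [fun_prop] glb_poly'
attribute [local irreducible] glb

/-- the pair `p = (y, b)` is supported by the pairs of `D` -/
def ok (M : Mx) (D : List (ℕ × ℕ)) (p : ℕ × ℕ) : Bool :=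
  (rg M).all (fun x =>
    (!(le M x p.1) || D.any (fun q => decide (q.1 = x) && glb M q.2 p.2 x)) &&
    (!(le M p.1 x) || D.any (fun q => decide (q.1 = x) && glb M p.2 q.2 p.1)))

theorem ok_poly : Poly (fun p : (Mx × List (ℕ × ℕ)) × (ℕ × ℕ) => ok p.1.1 p.1.2 p.2) := by
  unfold ok
  fun_prop

theorem ok_poly' {α : Type} [TEnc α] {M : α → Mx} {D : α → List (ℕ × ℕ)} {p : α → ℕ × ℕ}
    (h1 : Poly M) (h2 : Poly D) (h3 : Poly p) : Poly (fun a => ok (M a) (D a) (p a)) :=
  ok_poly.comp (Poly.pair (Poly.pair h1 h2) h3)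

attribute [fun_prop] ok_poly'

/-- one round of the removal of unsupported pairs -/
def step (M : Mx) (D : List (ℕ × ℕ)) : List (ℕ × ℕ) := D.filter (ok M D)

/-- the initial pairs for the condition `f d = c` -/
def init (M : Mx) (c d : ℕ) : List (ℕ × ℕ) :=
  ((rg M) ×ˢ (rg M)).filter
    (fun p => le M p.2 p.1 && (!(decide (p.1 = d)) || decide (p.2 = c)))

/-- the final pairs -/
def run (M : Mx) (c d : ℕ) : List (ℕ × ℕ) := (step M)^[(init M c d).length] (init M c d)

/-- the test for the pair `c ≤ d` -/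
def good (M : Mx) (c d : ℕ) : Bool :=
  (rg M).all (fun y => (run M c d).any (fun q => decide (q.1 = y)))

/-- the algorithm -/
def alg (M : Mx) : Bool := (rg M).all (fun c => (rg M).all (fun d => !(le M c d) || good M c d))

theorem init_poly : Poly (fun p : (Mx × ℕ) × ℕ => init p.1.1 p.1.2 p.2) := by
  unfold init
  fun_prop

theorem step_sub (M : Mx) (D : List (ℕ × ℕ)) (k : ℕ) : ((step M)^[k] D).Sublist D := by
  induction k generalizing D with
  | zero => exact List.Sublist.refl _
  | succ k ih =>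
    rw [Function.iterate_succ_apply]
    exact (ih _).trans List.filter_sublist

theorem sz_sublist {l l' : List (ℕ × ℕ)} (h : l.Sublist l') : sz l ≤ sz l' := by
  induction h with
  | slnil => simp
  | cons a _ ih => simp; omega
  | cons_cons a _ ih => simp; omega

theorem run_poly : Poly (fun p : (Mx × ℕ) × ℕ => run p.1.1 p.1.2 p.2) := by
  obtain ⟨q, hq⟩ := init_poly.sz_le
  unfold run
  refine NPC.Poly.iterLen (F := fun p : (Mx × ℕ) × ℕ => step p.1.1) init_poly init_poly ?_ q ?_
  · unfold step
    fun_prop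
  · intro a k _
    exact (sz_sublist (step_sub _ _ _)).trans (hq a)

theorem run_poly' {α : Type} [TEnc α] {M : α → Mx} {i j : α → ℕ} (h1 : Poly M) (h2 : Poly i)
    (h3 : Poly j) : Poly (fun a => run (M a) (i a) (j a)) :=
  run_poly.comp (Poly.pair (Poly.pair h1 h2) h3)

attribute [fun_prop] run_poly'

theorem alg_poly : Poly alg := by
  unfold alg good
  fun_prop

/-! ### Correctness -/

theorem mem_rg {M : Mx} {x : ℕ} : x ∈ rg M ↔ x < M.length := by
  unfold rg
  exact List.mem_range

/-- The iteration has reached a fixed point. -/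
theorem run_fixed (M : Mx) (c d : ℕ) : step M (run M c d) = run M c d := by
  have key : ∀ (n : ℕ) (D : List (ℕ × ℕ)), D.length ≤ n →
      step M ((step M)^[n] D) = (step M)^[n] D := by
    intro n
    induction n with
    | zero =>
      intro D hD
      have : D = [] := List.length_eq_zero_iff.1 (by omega)
      subst this
      rfl
    | succ n ih =>
      intro D hD
      rw [Function.iterate_succ_apply]
      by_cases h : (step M D).length ≤ n
      · exact ih _ h
      · have h1 : step M D = D := by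
          have h2 : (step M D).Sublist D := List.filter_sublist
          exact h2.eq_of_length_le (by omega)
        rw [h1]
        have h3 : ∀ k, (step M)^[k] D = D := by
          intro k
          induction k with
          | zero => rfl
          | succ k ih => rw [Function.iterate_succ_apply, h1, ih]
        rw [h3, h1]
  exact key _ _ le_rfl

theorem run_ok {M : Mx} {c d : ℕ} {p : ℕ × ℕ} (h : p ∈ run M c d) : ok M (run M c d) p = true := by
  rw [← run_fixed] at h
  exact (List.mem_filter.1 h).2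

theorem run_init {M : Mx} {c d : ℕ} {p : ℕ × ℕ} (h : p ∈ run M c d) : p ∈ init M c d :=
  (step_sub _ _ _).subset h

theorem mem_init {M : Mx} {c d : ℕ} {p : ℕ × ℕ} : p ∈ init M c d ↔
    (p.1 < M.length ∧ p.2 < M.length) ∧ le M p.2 p.1 = true ∧ (p.1 = d → p.2 = c) := by
  unfold init
  rw [List.mem_filter]
  obtain ⟨y, b⟩ := p
  rw [List.mem_product, mem_rg, mem_rg]
  simp only [Bool.and_eq_true, Bool.or_eq_true, Bool.not_eq_true', decide_eq_false_iff_not,
    decide_eq_true_eq]
  tauto

section

variable {M : Mx} {n : ℕ} (hn : M.length = n) {r : Fin n → Fin n → Prop}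
  (hM : ∀ i j : Fin n, le M i j = true ↔ r i j)

include hn hM

theorem glb_iff (a b x : Fin n) : glb M a b x = true ↔ GLB r a b x := by
  unfold glb GLB
  rw [Bool.and_eq_true, Bool.and_eq_true, hM, hM, List.all_eq_true]
  refine and_congr_right fun _ => and_congr_right fun _ => ?_
  constructor
  · intro h z hz1 hz2
    have := h z (by rw [mem_rg, hn]; exact z.2)
    rw [Bool.or_eq_true, Bool.not_eq_true', Bool.and_eq_false_iff] at this
    rcases this with (h1 | h1) | h1
    · rw [(hM z b).2 hz1] at h1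
      exact absurd h1 (by simp)
    · rw [(hM z x).2 hz2] at h1
      exact absurd h1 (by simp)
    · exact (hM z a).1 h1
  · intro h z hz
    rw [mem_rg, hn] at hz
    rw [Bool.or_eq_true, Bool.not_eq_true', Bool.and_eq_false_iff]
    by_cases h1 : le M z b = true
    · by_cases h2 : le M z x = true
      · exact Or.inr ((hM ⟨z, hz⟩ a).2 (h ⟨z, hz⟩ ((hM ⟨z, hz⟩ b).1 h1) ((hM ⟨z, hz⟩ x).1 h2)))
      · exact Or.inl (Or.inr (by simpa using h2))
    · exact Or.inl (Or.inl (by simpa using h1))

/-- A `↓`-function survives all rounds. -/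
theorem survive {f : Fin n → Fin n} (hf : ∀ x y, r x y → GLB r (f x) (f y) x) (c d : Fin n)
    (hfd : f d = c) (hrr : ∀ a, r a a) (y : Fin n) : (y.1, (f y).1) ∈ run M c d := by
  have key : ∀ (k : ℕ), ∀ y : Fin n, (y.1, (f y).1) ∈ (step M)^[k] (init M c d) := by
    intro k
    induction k with
    | zero =>
      intro y
      rw [Function.iterate_zero, id, mem_init, hn]
      refine ⟨⟨y.2, (f y).2⟩, (hM _ _).2 (hf y y (hrr y)).2.1, fun h => ?_⟩
      have : y = d := Fin.ext h
      rw [this, hfd]
    | succ k ih =>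
      intro y
      rw [Function.iterate_succ_apply']
      unfold step
      rw [List.mem_filter]
      refine ⟨ih y, ?_⟩
      unfold ok
      rw [List.all_eq_true]
      intro x hx
      rw [mem_rg, hn] at hx
      rw [Bool.and_eq_true, Bool.or_eq_true, Bool.or_eq_true]
      constructor
      · by_cases h : le M x y = true
        · right
          rw [List.any_eq_true]
          refine ⟨_, ih ⟨x, hx⟩, ?_⟩
          rw [Bool.and_eq_true, decide_eq_true_eq]
          exact ⟨rfl, (glb_iff hn hM _ _ ⟨x, hx⟩).2 (hf ⟨x, hx⟩ y ((hM ⟨x, hx⟩ y).1 h))⟩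
        · left
          simpa using h
      · by_cases h : le M y x = true
        · right
          rw [List.any_eq_true]
          refine ⟨_, ih ⟨x, hx⟩, ?_⟩
          rw [Bool.and_eq_true, decide_eq_true_eq]
          exact ⟨rfl, (glb_iff hn hM _ _ y).2 (hf y ⟨x, hx⟩ ((hM y ⟨x, hx⟩).1 h))⟩
        · left
          simpa using h
  exact key _ y

theorem good_iff (hr : ∀ a, r a a) (ht : ∀ a b c, r a b → r b c → r a c)
    (ha : ∀ a b, r a b → r b a → a = b) (c d : Fin n) :
    good M c d = true ↔ ∃ f, Down r f ∧ f d = c := by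
  classical
  unfold good
  rw [List.all_eq_true]
  constructor
  · intro h
    let D : Fin n → Finset (Fin n) := fun y => Finset.univ.filter (fun b => (y.1, b.1) ∈ run M c d)
    have hD : ∀ y b, b ∈ D y ↔ (y.1, b.1) ∈ run M c d := fun y b => by simp [D]
    have hmem : ∀ (x : Fin n) (q : ℕ × ℕ), q ∈ run M c d → q.1 = x.1 →
        ∃ b : Fin n, q = (x.1, b.1) ∧ b ∈ D x := by
      rintro x ⟨y, b⟩ hq hqx
      simp only at hqx
      subst hqx
      have h1 := (mem_init.1 (run_init hq)).1.2
      rw [hn] at h1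
      exact ⟨⟨b, h1⟩, rfl, (hD _ _).2 hq⟩
    have e1 : ∀ y, (D y).Nonempty := by
      intro y
      have h3 := h y (by rw [mem_rg, hn]; exact y.2)
      rw [List.any_eq_true] at h3
      obtain ⟨q, hq, hq'⟩ := h3
      obtain ⟨b, _, hb⟩ := hmem y q hq (by simpa using hq')
      exact ⟨b, hb⟩
    have e2 : ∀ y, ∀ b ∈ D y, r b y := by
      intro y b hb
      exact (hM _ _).1 (mem_init.1 (run_init ((hD _ _).1 hb))).2.1
    have e3 : ∀ y, ∀ b ∈ D y, ∀ x, r x y → ∃ a ∈ D x, GLB r a b x := by
      intro y b hb x hxy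
      have h1 := run_ok ((hD _ _).1 hb)
      unfold ok at h1
      rw [List.all_eq_true] at h1
      have h2 := h1 x (by rw [mem_rg, hn]; exact x.2)
      rw [Bool.and_eq_true, Bool.or_eq_true] at h2
      rcases h2.1 with h3 | h3
      · rw [(hM x y).2 hxy] at h3
        exact absurd h3 (by simp)
      · rw [List.any_eq_true] at h3
        obtain ⟨q, hq, hq'⟩ := h3
        rw [Bool.and_eq_true, decide_eq_true_eq] at hq'
        obtain ⟨a, rfl, haD⟩ := hmem x q hq hq'.1
        exact ⟨a, haD, (glb_iff hn hM _ _ _).1 hq'.2⟩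
    have e4 : ∀ x, ∀ a ∈ D x, ∀ y, r x y → ∃ b ∈ D y, GLB r a b x := by
      intro x a haD y hxy
      have h1 := run_ok ((hD _ _).1 haD)
      unfold ok at h1
      rw [List.all_eq_true] at h1
      have h2 := h1 y (by rw [mem_rg, hn]; exact y.2)
      rw [Bool.and_eq_true, Bool.or_eq_true, Bool.or_eq_true] at h2
      rcases h2.2 with h3 | h3
      · rw [(hM x y).2 hxy] at h3
        exact absurd h3 (by simp)
      · rw [List.any_eq_true] at h3
        obtain ⟨q, hq, hq'⟩ := h3
        rw [Bool.and_eq_true, decide_eq_true_eq] at hq'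
        obtain ⟨b, rfl, hbD⟩ := hmem y q hq hq'.1
        exact ⟨b, hbD, (glb_iff hn hM _ _ _).1 hq'.2⟩
    obtain ⟨f, hf, hfD⟩ := exists_down hr ht ha D e1 e2 e3 e4
    refine ⟨f, hf, ?_⟩
    have h1 : ∀ b, b ∈ D d → b = c := by
      intro b hb
      exact Fin.ext ((mem_init.1 (run_init ((hD _ _).1 hb))).2.2 rfl)
    have h2 : c ∈ D d := by
      have h3 := h d (by rw [mem_rg, hn]; exact d.2)
      rw [List.any_eq_true] at h3
      obtain ⟨q, hq, hq'⟩ := h3
      obtain ⟨b, _, hb⟩ := hmem d q hq (by simpa using hq')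
      rwa [h1 b hb] at hb
    have h3 := (hfD d (f d)).1 (hr _) c h2
    have h4 := (hfD d c).2 (fun b hb => by rw [h1 b hb]; exact hr c)
    exact ha _ _ h3 h4
  · rintro ⟨f, hf, hfd⟩ y hy
    rw [mem_rg, hn] at hy
    rw [List.any_eq_true]
    exact ⟨_, survive hn hM ((down_iff hr ht ha f).1 hf) c d hfd hr ⟨y, hy⟩, by simp⟩

theorem alg_iff (hr : ∀ a, r a a) (ht : ∀ a b c, r a b → r b c → r a c)
    (ha : ∀ a b, r a b → r b a → a = b) : alg M = true ↔ IsDownPoset r := by
  rw [isDownPoset_iff hr ht ha]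
  unfold alg
  rw [List.all_eq_true]
  constructor
  · intro h c d hcd
    have h1 := h c (by rw [mem_rg, hn]; exact c.2)
    rw [List.all_eq_true] at h1
    have h2 := h1 d (by rw [mem_rg, hn]; exact d.2)
    rw [Bool.or_eq_true] at h2
    rcases h2 with h3 | h3
    · rw [(hM c d).2 hcd] at h3
      exact absurd h3 (by simp)
    · exact (good_iff hn hM hr ht ha c d).1 h3
  · intro h c hc
    rw [mem_rg, hn] at hc
    rw [List.all_eq_true]
    intro d hd
    rw [mem_rg, hn] at hd
    rw [Bool.or_eq_true]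
    by_cases h1 : le M c d = true
    · right
      exact (good_iff hn hM hr ht ha ⟨c, hc⟩ ⟨d, hd⟩).2
        (h ⟨c, hc⟩ ⟨d, hd⟩ ((hM ⟨c, hc⟩ ⟨d, hd⟩).1 h1))
    · left
      simpa using h1

end

end Pool.Agent.Q324.DP
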