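import Pool.Agent.NPC.Classes

/-!
# Posets of actions of semilattices: definitions
-/

namespace Pool.Agent.Q324.DP

open Pool.Agent.NPC

/-- The relation `le` on `C` makes `C` a `↓`-poset: `(C, le)` is isomorphic (by `e`) to the poset
`(D, ≤)` of some action `act : D → S → D` of a semilattice with identity `S` (a commutative
idempotent monoid) on a set `D`, where `c ≤ d` if and only if `c = d s` for some `s` in `S`. -/
def IsDownPoset {C : Type} (le : C → C → Prop) : Prop :=
  ∃ (S : Type) (_ : CommMonoid S) (D : Type) (act : D → S → D) (e : C ≃ D),
    (∀ s : S, s * s = s) ∧ (∀ c s t, act c (s * t) = act (act c s) t) ∧ (∀ c, act c 1 = c) ∧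
    ∀ c d, le c d ↔ ∃ s, act (e d) s = e c

/-- A finite poset with underlying set `{0, …, n-1}`. -/
structure FinPoset where
  /-- the number of elements -/
  n : ℕ
  /-- the order relation -/
  le : Fin n → Fin n → Prop
  /-- reflexivity -/
  refl : ∀ a, le a a
  /-- transitivity -/
  trans : ∀ a b c, le a b → le b c → le a c
  /-- antisymmetry -/
  antisymm : ∀ a b, le a b → le b a → a = b

open Classical in
/-- The Boolean matrix of the order relation, as a list of rows. -/
noncomputable def FinPoset.matrix (C : FinPoset) : List (List Bool) :=
  List.ofFn fun i : Fin C.n => List.ofFn fun j : Fin C.n => decide (C.le i j)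

theorem FinPoset.matrix_injective : Function.Injective FinPoset.matrix := by
  classical
  rintro ⟨n, le, h1, h2, h3⟩ ⟨n', le', h1', h2', h3'⟩ h
  have hn : n = n' := by simpa [FinPoset.matrix] using congrArg List.length h
  subst hn
  have h2 := List.ofFn_injective h
  congr 1
  ext i j
  have h3 := List.ofFn_injective (congrFun h2 i)
  simpa using congrFun h3 j

/-- A finite poset is encoded by the Boolean matrix of its order relation. -/
noncomputable instance : TEnc FinPoset :=
  ⟨fun C => toT C.matrix, fun _ _ h => FinPoset.matrix_injective (TEnc.inj h)⟩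

end Pool.Agent.Q324.DP
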