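import Pool.Agent.Q324.DP.Alg

/-!
# Recognition of `↓`-posets in polynomial time
-/

namespace Pool.Agent.Q324.DP

open Pool.Agent.NPC

/-- the test whether a matrix is the matrix of a partial order -/
def valid (M : Mx) : Bool :=
  M.all (fun row => decide (row.length = M.length)) &&
  ((rg M).all (fun a => le M a a) &&
  ((rg M).all (fun a => (rg M).all (fun b => (rg M).all (fun c =>
    !(le M a b && le M b c) || le M a c))) &&
  (rg M).all (fun a => (rg M).all (fun b => !(le M a b && le M b a) || decide (a = b)))))

theorem valid_poly : Poly valid := by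
  unfold valid
  fun_prop

theorem getD_ofFn {β : Type} {n : ℕ} (f : Fin n → β) (d : β) (i : Fin n) :
    (List.ofFn f).getD i d = f i := by
  rw [List.getD_eq_getElem _ _ (by simp), List.getElem_ofFn]

theorem le_matrix (C : FinPoset) (i j : Fin C.n) : le C.matrix i j = true ↔ C.le i j := by
  classical
  unfold le FinPoset.matrix
  rw [getD_ofFn, getD_ofFn]
  simp

theorem valid_iff (M : Mx) : valid M = true ↔ ∃ C : FinPoset, C.matrix = M := by
  classical
  unfold valid
  simp only [Bool.and_eq_true, List.all_eq_true, decide_eq_true_eq, mem_rg, Bool.or_eq_true,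
    Bool.not_eq_true', Bool.and_eq_false_iff]
  constructor
  · rintro ⟨h1, h2, h3, h4⟩
    refine ⟨⟨M.length, fun i j => le M i j = true, fun a => h2 a a.2, fun a b c hab hbc => ?_,
      fun a b hab hba => ?_⟩, ?_⟩
    · rcases h3 a a.2 b b.2 c c.2 with (h | h) | h
      · rw [hab] at h
        exact absurd h (by simp)
      · rw [hbc] at h
        exact absurd h (by simp)
      · exact h
    · rcases h4 a a.2 b b.2 with (h | h) | h
      · rw [hab] at h
        exact absurd h (by simp)
      · rw [hba] at h
        exact absurd h (by simp)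
      · exact Fin.ext h
    · unfold FinPoset.matrix
      apply List.ext_getElem
      · simp
      · intro i h5 h6
        simp only [List.getElem_ofFn]
        apply List.ext_getElem
        · simp only [List.length_ofFn]
          exact (h1 _ (List.getElem_mem h6)).symm
        · intro j h7 h8
          simp only [List.getElem_ofFn]
          have h9 : le M i j = M[i][j] := by
            unfold le
            rw [List.getD_eq_getElem _ _ h6, List.getD_eq_getElem _ _ h8]
          rw [← h9]
          exact Bool.decide_eq_true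
  · rintro ⟨C, rfl⟩
    have hl : C.matrix.length = C.n := by simp [FinPoset.matrix]
    have hle := le_matrix C
    refine ⟨?_, ?_, ?_, ?_⟩
    · intro row hrow
      unfold FinPoset.matrix at hrow ⊢
      rw [List.mem_ofFn] at hrow
      obtain ⟨i, rfl⟩ := hrow
      simp
    · intro a ha
      rw [hl] at ha
      exact (hle ⟨a, ha⟩ ⟨a, ha⟩).2 (C.refl _)
    · intro a ha b hb c hc
      rw [hl] at ha hb hc
      by_cases h1 : le C.matrix a b = true
      · by_cases h2 : le C.matrix b c = true
        · exact Or.inr ((hle ⟨a, ha⟩ ⟨c, hc⟩).2 (C.trans _ ⟨b, hb⟩ _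
            ((hle ⟨a, ha⟩ ⟨b, hb⟩).1 h1) ((hle ⟨b, hb⟩ ⟨c, hc⟩).1 h2)))
        · exact Or.inl (Or.inr (by simpa using h2))
      · exact Or.inl (Or.inl (by simpa using h1))
    · intro a ha b hb
      rw [hl] at ha hb
      by_cases h1 : le C.matrix a b = true
      · by_cases h2 : le C.matrix b a = true
        · exact Or.inr (congrArg Fin.val (C.antisymm _ _
            ((hle ⟨a, ha⟩ ⟨b, hb⟩).1 h1) ((hle ⟨b, hb⟩ ⟨a, ha⟩).1 h2)))
        · exact Or.inl (Or.inr (by simpa using h2))
      · exact Or.inl (Or.inl (by simpa using h1))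

theorem alg_matrix (C : FinPoset) : alg C.matrix = true ↔ IsDownPoset C.le := by
  classical
  exact alg_iff (by simp [FinPoset.matrix]) (le_matrix C) C.refl C.trans C.antisymm

/-- **Recognition of `↓`-posets is in P.** -/
theorem main : InPP (fun C : FinPoset => IsDownPoset C.le) := by
  have h1 : InPP (fun M : Mx => (valid M && alg M) = true) :=
    inPP_of (d := fun M => valid M && alg M) (NPC.Poly.and valid_poly alg_poly) (fun _ => Iff.rfl)
  have h2 : lang (fun C : FinPoset => IsDownPoset C.le) =
      lang (fun M : Mx => (valid M && alg M) = true) := by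
    ext x
    constructor
    · rintro ⟨C, rfl, hC⟩
      exact ⟨C.matrix, rfl, Bool.and_eq_true_iff.2 ⟨(valid_iff _).2 ⟨C, rfl⟩, (alg_matrix C).2 hC⟩⟩
    · rintro ⟨M, rfl, hM⟩
      have hM := Bool.and_eq_true_iff.1 hM
      obtain ⟨C, rfl⟩ := (valid_iff M).1 hM.1
      exact ⟨C, rfl, (alg_matrix C).1 hM.2⟩
  unfold InPP
  rw [h2]
  exact h1

end Pool.Agent.Q324.DP
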